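import Pool.Agent.Y19.QT.ML

/-!
# The Lindelöf bound for almost all quadratic twists over multiquadratic fields

`E : y² = x³ + a x + b` is an elliptic curve over `ℚ`, `K = ℚ(√e_1, …, √e_n)` a multiquadratic field of
degree `2ⁿ`, `π` the representation of `PGL₂` of the adeles of `K` attached to `E`, and for a squarefree
integer `d` (positive or negative) `χ_d` is the quadratic character of `K` attached to `K(√d)`, so that
`L(1/2 + it, π ⊗ χ_d) = L(E_d/K, 1 + it)`.  We prove, without any hypothesis, for all `E` with
`j`-invariant `0` or `1728` and for all quadratic twists of `X₀(11)` and `X₀(14)`, and for every elliptic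
curve over `ℚ` whose quadratic twists are modular:

`∑_{|d| ≤ X} sup_t |L(1/2 + it, π ⊗ χ_d)|^(2/2ⁿ) (2 + |t|)^(-B) ≤ C X (log X)^A`,

so that the Lindelöf bound holds with powers of logarithms for all `|d| ≤ X` except `O(X / (log X)^k)`,
and at most `C X^(1 - 2β) (log X)^A` of the `|d| ≤ X` have `|L(1/2, π ⊗ χ_d)| > C (X^(2ⁿ))^β`
(`|d|^(2ⁿ)` is the norm of `d`).

Method: a large sieve inequality for quadratic characters with a loss of a power of `log X` only, applied to
the `2ⁿ` twists of the newform in the decomposition of the `L`-function over `K`.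
-/

set_option autoImplicit false

namespace Pool.Agent.Results.MP_21d687_nt.MultiquadraticBaseFields

open Pool.Agent.Y19.QT

theorem result : (∀ a b : ℤ, Fam a b → MultiLindelofLaw a b) ∧
    ∀ a b : ℤ, 4 * a ^ 3 + 27 * b ^ 2 ≠ 0 → TwistsModular a b → MultiLindelofLaw a b :=
  ⟨fun _ _ h => multiLindelof_fam h, fun _ _ hab h => multiLindelof_modular hab h⟩

end Pool.Agent.Results.MP_21d687_nt.MultiquadraticBaseFields
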